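import Pool.Agent.W169.HF.Lap1
import Pool.Agent.W169.HF.DefsL

/-!
# Half-line Laplace method: integrability and derivative under the integral
-/

set_option autoImplicit false

open Complex MeasureTheory Filter Topology Set
open scoped ComplexConjugate

namespace Pool.Agent.W578.HF

open Pool.Agent.W169.HF

theorem g_bound {K a ℓ : ℝ} {g P : ℝ → ℂ} (hK : 1 ≤ K) (ha : 1 / 2 ≤ a) (h : RP K a ℓ g P) (u : ℝ)
    (hu : 0 < u) : ‖g u‖ ≤ K * ‖g a‖ * Real.exp (‖P a‖ * u + K * u ^ 2) := by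
  rcases le_or_gt u a with hua | hua
  · refine (h.left u hu.le hua).trans ?_
    have h1 : 1 ≤ Real.exp (‖P a‖ * u + K * u ^ 2) := Real.one_le_exp (by positivity)
    have h2 : 0 ≤ K * ‖g a‖ := by positivity
    nlinarith
  · obtain ⟨R, hR, e⟩ := h.rep (by linarith) (le_refl a) hua.le
    rw [e, norm_mul, Complex.norm_exp]
    have h1 : (P a * ((u - a : ℝ) : ℂ) + R).re ≤ ‖P a‖ * u + K * u ^ 2 := by
      rw [add_re]
      have h2 : (P a * ((u - a : ℝ) : ℂ)).re ≤ ‖P a‖ * u := by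
        refine (Complex.re_le_norm _).trans ?_
        rw [norm_mul, Complex.norm_real, Real.norm_eq_abs, abs_of_pos (by linarith)]
        exact mul_le_mul_of_nonneg_left (by linarith) (norm_nonneg _)
      have h3 : R.re ≤ K * u ^ 2 := by
        refine (Complex.re_le_norm _).trans (hR.trans ?_)
        have : (u - a) ^ 2 ≤ u ^ 2 := by nlinarith
        exact mul_le_mul_of_nonneg_left this (by linarith)
      linarith
    have h2 : Real.exp (P a * ((u - a : ℝ) : ℂ) + R).re ≤ Real.exp (‖P a‖ * u + K * u ^ 2) :=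
      Real.exp_le_exp.2 h1
    have h3 : 0 ≤ ‖g a‖ := norm_nonneg _
    have h4 : 0 < Real.exp (‖P a‖ * u + K * u ^ 2) := Real.exp_pos _
    calc ‖g a‖ * Real.exp (P a * ((u - a : ℝ) : ℂ) + R).re
        ≤ ‖g a‖ * Real.exp (‖P a‖ * u + K * u ^ 2) := mul_le_mul_of_nonneg_left h2 h3
      _ ≤ K * ‖g a‖ * Real.exp (‖P a‖ * u + K * u ^ 2) := by
        refine mul_le_mul_of_nonneg_right ?_ h4.le
        nlinarith

theorem ww_bound {K a ℓ t : ℝ} {g P : ℝ → ℂ} (hK : 1 ≤ K) (ha : 1 / 2 ≤ a) (h : RP K a ℓ g P)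
    (x y u : ℝ) (hu : 0 < u) (ht : 0 < t) (hxy : x ≤ y) :
    ‖ww t g x u‖ ≤ K * ‖g a‖ *
      Real.exp (-((1 / (4 * t) - K) * u ^ 2) + (y / (2 * t) + ‖P a‖) * u + 0) := by
  unfold ww
  rw [norm_mul, Complex.norm_real, Real.norm_eq_abs, abs_of_pos (Real.exp_pos _)]
  have h1 := g_bound hK ha h u hu
  have h2 : x * u / (2 * t) ≤ y * u / (2 * t) := by gcongr
  calc Real.exp (x * u / (2 * t) - u ^ 2 / (4 * t)) * ‖g u‖
      ≤ Real.exp (y * u / (2 * t) - u ^ 2 / (4 * t)) *
        (K * ‖g a‖ * Real.exp (‖P a‖ * u + K * u ^ 2)) := by gcongr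
    _ = K * ‖g a‖ * (Real.exp (y * u / (2 * t) - u ^ 2 / (4 * t)) *
        Real.exp (‖P a‖ * u + K * u ^ 2)) := by ring
    _ = _ := by
        rw [← Real.exp_add]
        congr 2
        field_simp
        ring

theorem uww_bound {K a ℓ t : ℝ} {g P : ℝ → ℂ} (hK : 1 ≤ K) (ha : 1 / 2 ≤ a) (h : RP K a ℓ g P)
    (x y u : ℝ) (hu : 0 < u) (ht : 0 < t) (hxy : x ≤ y) :
    u * ‖ww t g x u‖ ≤ K * ‖g a‖ *
      Real.exp (-((1 / (4 * t) - K) * u ^ 2) + (y / (2 * t) + ‖P a‖ + 1) * u + 0) := by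
  have h1 := ww_bound hK ha h x y u hu ht hxy
  have h2 : u ≤ Real.exp u := by linarith [Real.add_one_le_exp u]
  calc u * ‖ww t g x u‖ ≤ Real.exp u * (K * ‖g a‖ *
      Real.exp (-((1 / (4 * t) - K) * u ^ 2) + (y / (2 * t) + ‖P a‖) * u + 0)) := by gcongr
    _ = K * ‖g a‖ * (Real.exp u *
      Real.exp (-((1 / (4 * t) - K) * u ^ 2) + (y / (2 * t) + ‖P a‖) * u + 0)) := by ring
    _ = _ := by
        rw [← Real.exp_add]
        congr 2
        ring

theorem ww_cont {t : ℝ} {g : ℝ → ℂ} (hg : Continuous g) (x : ℝ) : Continuous (ww t g x) := by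
  unfold ww
  refine Continuous.mul ?_ hg
  exact Complex.continuous_ofReal.comp (by fun_prop)

/-- LINT -/
theorem lint : S_LINT := by
  intro K a ℓ t g P hK ha h ht ht2 x
  have hb : 0 < 1 / (4 * t) - K := by
    have h1 : 4 * K ≤ 1 / (4 * t) := by
      rw [le_div_iff₀ (by positivity)]
      rw [le_div_iff₀ (by positivity)] at ht2
      linarith
    linarith
  have hI : ∀ c : ℝ, IntegrableOn (fun u : ℝ => K * ‖g a‖ *
      Real.exp (-((1 / (4 * t) - K) * u ^ 2) + c * u + 0)) (Ioi 0) := fun c =>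
    ((gint_quad hb c 0).const_mul _).integrableOn
  have hc := fun y => ww_cont (t := t) h.cont y
  have i1 : IntegrableOn (ww t g x) (Ioi 0) := by
    refine Integrable.mono' (hI (x / (2 * t) + ‖P a‖)) (hc x).aestronglyMeasurable ?_
    rw [ae_restrict_iff' measurableSet_Ioi]
    exact Eventually.of_forall fun u hu => ww_bound hK ha h x x u hu ht le_rfl
  have i2 : IntegrableOn (fun u : ℝ => (u : ℂ) * ww t g x u) (Ioi 0) := by
    refine Integrable.mono' (hI (x / (2 * t) + ‖P a‖ + 1))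
      ((Complex.continuous_ofReal.mul (hc x)).aestronglyMeasurable) ?_
    rw [ae_restrict_iff' measurableSet_Ioi]
    refine Eventually.of_forall fun u hu => ?_
    rw [norm_mul, Complex.norm_real, Real.norm_eq_abs, abs_of_pos hu]
    exact uww_bound hK ha h x x u hu ht le_rfl
  refine ⟨i1, i2, ?_⟩
  have hF' : Continuous (fun u : ℝ => ((u / (2 * t) : ℝ) : ℂ) * ww t g x u) :=
    (Complex.continuous_ofReal.comp (by fun_prop)).mul (hc x)
  have key := hasDerivAt_integral_of_dominated_loc_of_deriv_le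
    (μ := volume.restrict (Ioi (0 : ℝ))) (F := fun y u => ww t g y u)
    (F' := fun y u => ((u / (2 * t) : ℝ) : ℂ) * ww t g y u) (x₀ := x)
    (s := Metric.ball x 1)
    (bound := fun u => 1 / (2 * t) * (K * ‖g a‖ *
      Real.exp (-((1 / (4 * t) - K) * u ^ 2) + ((x + 1) / (2 * t) + ‖P a‖ + 1) * u + 0)))
    (Metric.ball_mem_nhds x one_pos)
    (Eventually.of_forall fun y => (hc y).aestronglyMeasurable) i1 hF'.aestronglyMeasurable
    ?_ ((hI _).const_mul _) ?_
  · exact key.2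
  · rw [ae_restrict_iff' measurableSet_Ioi]
    refine Eventually.of_forall fun u hu y hy => ?_
    rw [Metric.mem_ball, Real.dist_eq, abs_lt] at hy
    have hu0 : 0 < u := hu
    rw [norm_mul, Complex.norm_real, Real.norm_eq_abs, abs_of_pos (by positivity)]
    have h1 := uww_bound hK ha h y (x + 1) u hu ht (by linarith [hy.2])
    calc u / (2 * t) * ‖ww t g y u‖ = 1 / (2 * t) * (u * ‖ww t g y u‖) := by ring
      _ ≤ _ := by gcongr
  · refine Eventually.of_forall fun u y _ => ?_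
    unfold ww
    have h1 : HasDerivAt (fun y : ℝ => Real.exp (y * u / (2 * t) - u ^ 2 / (4 * t)))
        (Real.exp (y * u / (2 * t) - u ^ 2 / (4 * t)) * (u / (2 * t))) y := by
      apply HasDerivAt.exp
      have h2 := (((hasDerivAt_id y).mul_const u).div_const (2 * t)).sub_const (u ^ 2 / (4 * t))
      simpa using h2
    have h3 := (h1.ofReal_comp).mul_const (g u)
    refine h3.congr_deriv ?_
    push_cast
    ring

end Pool.Agent.W578.HF
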